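import Pool.Agent.V1125.DPow.Buch

/-!
# Gröbner-coherence of the one-variable divided power algebra
-/

set_option autoImplicit false

universe u

namespace Pool.Agent.Results.MP_5b8a1a_al.GroebnerCoherent

open V1125.DPow Polynomial TensorProduct

variable (k : Type u) [CommRing k]

/-- The kernel of `k → k ⊗ ℚ` is torsion. -/
theorem ker_tors (a : k) (h : (a ⊗ₜ[ℤ] (1 : ℚ) : k ⊗[ℤ] ℚ) = 0) :
    ∃ s : ℕ, 0 < s ∧ (s : k) * a = 0 := by
  have h1 : TensorProduct.mk ℤ ℚ k 1 a = 0 := by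
    rw [TensorProduct.mk_apply]
    have := congrArg (TensorProduct.comm ℤ k ℚ) h
    rwa [TensorProduct.comm_tmul, map_zero] at this
  rw [IsLocalizedModule.eq_zero_iff (nonZeroDivisors ℤ) (TensorProduct.mk ℤ ℚ k 1)] at h1
  obtain ⟨c, hc⟩ := h1
  have hc0 : (c : ℤ) ≠ 0 := nonZeroDivisors.ne_zero c.2
  have hc' : ((c : ℤ) : k) * a = 0 := by
    have : (c : ℤ) • a = 0 := hc
    rwa [zsmul_eq_mul] at this
  refine ⟨(c : ℤ).natAbs, Int.natAbs_pos.2 hc0, ?_⟩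
  rcases Int.natAbs_eq (c : ℤ) with h2 | h2
  · have h3 : (((c : ℤ).natAbs : ℕ) : k) = ((c : ℤ) : k) := by
      conv_rhs => rw [h2]
      rw [Int.cast_natCast]
    rw [h3, hc']
  · have h3 : (((c : ℤ).natAbs : ℕ) : k) = - ((c : ℤ) : k) := by
      conv_rhs => rw [h2]
      rw [Int.cast_neg, Int.cast_natCast, neg_neg]
    rw [h3, neg_mul, hc', neg_zero]

/-- Every element of `k ⊗ ℚ` has a common denominator. -/
theorem exists_denom (z : k ⊗[ℤ] ℚ) : ∃ s : ℕ, 0 < s ∧ ∃ a : k,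
    (s : k ⊗[ℤ] ℚ) * z = a ⊗ₜ[ℤ] (1 : ℚ) := by
  have hcast : ∀ s : ℕ, (s : k ⊗[ℤ] ℚ) = (s : k) ⊗ₜ[ℤ] (1 : ℚ) := by
    intro s
    have := (map_natCast (Algebra.TensorProduct.includeLeft : k →ₐ[ℤ] k ⊗[ℤ] ℚ) s).symm
    exact this
  induction z using TensorProduct.induction_on with
  | zero => exact ⟨1, one_pos, 0, by rw [mul_zero, TensorProduct.zero_tmul]⟩
  | tmul a q =>
    refine ⟨q.den, q.den_pos, (q.num : k) * a, ?_⟩
    rw [hcast, Algebra.TensorProduct.tmul_mul_tmul, one_mul]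
    have h1 : ((q.den : ℕ) : k) * a = (q.den : ℤ) • a := by
      rw [zsmul_eq_mul, Int.cast_natCast]
    have h2 : (q.num : k) * a = q.num • a := by rw [zsmul_eq_mul]
    rw [h1, h2, TensorProduct.smul_tmul, TensorProduct.smul_tmul]
    congr 1
    rw [zsmul_eq_mul, zsmul_eq_mul, mul_one, Int.cast_natCast, mul_comm]
    exact Rat.mul_den_eq_num q
  | add x y hx hy =>
    obtain ⟨s, hs, a, ha⟩ := hx
    obtain ⟨t, ht, b, hb⟩ := hy
    refine ⟨s * t, Nat.mul_pos hs ht, (t : k) * a + (s : k) * b, ?_⟩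
    have e1 : ((s * t : ℕ) : k ⊗[ℤ] ℚ) * (x + y) =
        (t : k ⊗[ℤ] ℚ) * ((s : k ⊗[ℤ] ℚ) * x) + (s : k ⊗[ℤ] ℚ) * ((t : k ⊗[ℤ] ℚ) * y) := by
      push_cast; ring
    rw [e1, ha, hb, hcast, hcast, Algebra.TensorProduct.tmul_mul_tmul,
      Algebra.TensorProduct.tmul_mul_tmul, one_mul, TensorProduct.add_tmul]

/-- **Affirmative answer to Q1.** If the divided power algebra `D_k` is graded-coherent and
`(k ⊗ ℚ)[x]` is Gröbner-coherent, then `D_k` is Gröbner-coherent. -/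
theorem result (k : Type u) [CommRing k] (hD : GradedCoherent (dpComp (k := k)))
    (hQ : GroebnerCoherent (polyComp (K := k ⊗[ℤ] ℚ))) :
    GroebnerCoherent (dpComp (k := k)) := by
  refine ⟨hD, fun I hI => ?_⟩
  let _ : Algebra ℚ (k ⊗[ℤ] ℚ) := Algebra.TensorProduct.rightAlgebra
  exact main (ψ := (Algebra.TensorProduct.includeLeft : k →ₐ[ℤ] k ⊗[ℤ] ℚ).toRingHom) hD
    (fun a ha => ker_tors k a ha) (fun z => exists_denom k z) hQ.2 I hI

end Pool.Agent.Results.MP_5b8a1a_al.GroebnerCoherent
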